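import Pool.Agent.Z15.V.Stm
import Pool.Agent.T2h66.Q15.EXT

/-! The task V_CK of helper15. -/

set_option autoImplicit false
set_option linter.unusedSectionVars false

namespace Pool.Agent.T2h97.V15

open Module Pool.Agent.Y90 Pool.Agent.R915 Pool.Agent.W546.GHC Pool.Agent.N178.BL Pool.Agent.Z15.Q
open Pool.Agent.Z15.V
open Pool.Agent.N178.HX (Cor)
open Pool.Agent.N178.MU (Projectors IsChowKunneth HodgeZero F)

/-- the image in other degrees -/
theorem img_other {C : ChowTheory} {X : AV} {p : C.Co X X} {P : ℕ → C.Co X X}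
    (h : IsChowKunneth p P) {m l : ℕ} (hl : l ≠ m) : C.img (P m) l = ⊥ := by
  unfold ChowTheory.img
  rw [Submodule.span_eq_bot]
  rintro _ ⟨ω, rfl⟩
  exact h.2.2.2 m l hl ω

/-- **The pieces of a Chow-Künneth decomposition** -/
theorem t_V_CKi : V_CKi := by
  intro hI C K X E R hR p P hact h m i hmi hH O z hO hz
  have hact' : ActsThrough R (P m) := by
    intro l
    by_cases hl : l = m
    · subst hl
      obtain ⟨ι, hι, x, r, hr, hω⟩ := hact l
      refine ⟨ι, hι, x, r, hr, fun ω => ?_⟩
      rw [Pool.Agent.N178.MU.pb_part h, hω]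
    · refine ⟨PEmpty, inferInstance, fun e => e.elim, fun e => e.elim, fun e => e.elim,
        fun ω => ?_⟩
      rw [h.2.2.2 m l hl ω]
      rfl
  have hcon : C.HasConiveau (P m) (i + 1) := by
    intro l s t hst hne hlt
    by_cases hl : l = m
    · subst hl
      subst hst
      rw [Pool.Agent.N178.MU.img_part h]
      exact hH s t rfl hne (by omega)
    · rw [img_other h hl]
      rw [eq_bot_iff]
      intro ψ hψ
      have h1 := (Submodule.mem_inf.1 hψ).1
      rw [Submodule.mem_bot]
      unfold complexify at h1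
      clear hψ
      induction h1 using Submodule.span_induction with
      | mem ψ hψ =>
        obtain ⟨f, hf, hψ'⟩ := hψ
        rw [Submodule.mem_bot] at hf
        exact ((Pool.Agent.T2h66.Q15.t_Q_EXT X l).2.1 ψ 0 fun w => by
          rw [hψ' w, hf]
          simp)
      | zero => rfl
      | add a b _ _ ha hb => rw [ha, hb, add_zero]
      | smul a ψ _ hψ => rw [hψ, smul_zero]
  have h1 := hI C X E R hR (P m) (h.1 m) hact' (i + 1) hcon
  have hdeg : C.IsDeg i (C.o (P m) z) := by
    have h3 := C.deg_o z (P m) hz (h.1 m).1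
    rwa [add_zero] at h3
  refine cycle_zero h1 hO (i := (i : ℤ)) (by push_cast; omega) hdeg ?_ ?_
  · rw [C.assoc, (h.1 m).2]
  · intro ω
    exact Pool.Agent.N178.MU.hom_part K hO h (by exact_mod_cast hmi) hz ω

end Pool.Agent.T2h97.V15
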