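import Pool.Agent.Z15.V.Stm

/-! The task V_IMG of helper15. -/

set_option autoImplicit false
set_option linter.unusedSectionVars false

namespace Pool.Agent.T2h97.V15

open Module Pool.Agent.Y90 Pool.Agent.R915 Pool.Agent.W546.GHC Pool.Agent.N178.BL Pool.Agent.Z15.Q
open Pool.Agent.Z15.V
open Pool.Agent.N178.HX (Cor)

theorem sum_app {S M N : Type} [CommSemiring S] [AddCommMonoid M] [Module S M]
    [AddCommMonoid N] [Module S N] {κ ι : Type} (s : Finset ι) (f : ι → M [⋀^κ]→ₗ[S] N)
    (v : κ → M) : (∑ l ∈ s, f l) v = ∑ l ∈ s, f l v := by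
  classical
  induction s using Finset.induction_on with
  | empty => rfl
  | insert a s ha ih => rw [Finset.sum_insert ha, Finset.sum_insert ha, AlternatingMap.add_apply, ih]

theorem key (hM : Q_MAIN) (hE : Q_EXT) {C : ChowTheory} {X : AV} {E : X.H → X.H → ℚ}
    {R : Subalgebra ℚ (Module.End ℚ X.H)} (hR : RealType X E R) {p : C.Co X X}
    (hact : ActsThrough R p) {c : ℕ} (hc : C.HasConiveau p c) {m c' : ℕ} (h1 : c' ≤ c)
    (h2 : 2 * c' ≤ m) : C.img p m ≤ Submodule.span ℚ (divisorProducts X.per m c') := by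
  obtain ⟨ι, _, x, r, hr, hω⟩ := hact m
  choose ρ hρ using fun l => hR.hom (r l) (hr l)
  unfold ChowTheory.img
  refine Submodule.span_le.2 ?_
  rintro _ ⟨ω, rfl⟩
  rw [SetLike.mem_coe, hω ω]
  refine hM X E R hR m c' ι x r ρ hr hρ ?_ (ω m)
  intro q hq φ hφ
  have h3 : complexify X.per (C.img p m) ⊓ typeForms X.T m (m - q) q = ⊥ :=
    hc m (m - q) q (by omega) (by omega) (Or.inr (by omega))
  have h4 : ∑ l, (x l : ℂ) • φ.compLinearMap ((ρ l).restrictScalars ℝ) ∈
      complexify X.per (C.img p m) ⊓ typeForms X.T m (m - q) q := by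
    refine Submodule.mem_inf.2 ⟨?_, ?_⟩
    · have h5 : φ ∈ complexify X.per (⊤ : Submodule ℚ (X.H [⋀^Fin m]→ₗ[ℚ] ℚ)) := by
        rw [(hE X m).2.2.1]
        exact Submodule.mem_top
      clear hφ
      unfold complexify at h5
      induction h5 using Submodule.span_induction with
      | mem ψ hψ =>
        obtain ⟨f, -, hf⟩ := hψ
        refine Submodule.subset_span ⟨∑ l, x l • f.compLinearMap (r l), ?_, ?_⟩
        · refine Submodule.subset_span ⟨inc X m f, ?_⟩
          rw [hω, inc_same]
        · intro w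
          rw [sum_app, sum_app]
          push_cast
          refine Finset.sum_congr rfl fun l _ => ?_
          rw [AlternatingMap.smul_apply, AlternatingMap.smul_apply,
            AlternatingMap.compLinearMap_apply, AlternatingMap.compLinearMap_apply]
          have h6 : (fun i => ((ρ l).restrictScalars ℝ) (X.per (w i))) =
              fun i => X.per (r l (w i)) := by
            funext i
            exact hρ l (w i)
          have h7 := hf fun i => r l (w i)
          rw [← h6] at h7
          rw [smul_eq_mul, smul_eq_mul]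
          push_cast
          congr 1
      | zero =>
        have h6 : ∑ l, (x l : ℂ) • (0 : X.T [⋀^Fin m]→ₗ[ℝ] ℂ).compLinearMap
            ((ρ l).restrictScalars ℝ) = 0 := by
          refine Finset.sum_eq_zero fun l _ => ?_
          ext w
          simp
        rw [h6]
        exact Submodule.zero_mem _
      | add ψ ψ' _ _ hψ hψ' =>
        have h6 : ∑ l, (x l : ℂ) • (ψ + ψ').compLinearMap ((ρ l).restrictScalars ℝ) =
            ∑ l, (x l : ℂ) • ψ.compLinearMap ((ρ l).restrictScalars ℝ) +
            ∑ l, (x l : ℂ) • ψ'.compLinearMap ((ρ l).restrictScalars ℝ) := by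
          rw [← Finset.sum_add_distrib]
          refine Finset.sum_congr rfl fun l _ => ?_
          ext w
          simp
        rw [h6]
        exact Submodule.add_mem _ hψ hψ'
      | smul a ψ _ hψ =>
        have h6 : ∑ l, (x l : ℂ) • (a • ψ).compLinearMap ((ρ l).restrictScalars ℝ) =
            a • ∑ l, (x l : ℂ) • ψ.compLinearMap ((ρ l).restrictScalars ℝ) := by
          rw [Finset.smul_sum]
          refine Finset.sum_congr rfl fun l _ => ?_
          ext w
          simp only [AlternatingMap.smul_apply, AlternatingMap.compLinearMap_apply, smul_eq_mul]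
          ring
        rw [h6]
        exact Submodule.smul_mem _ _ hψ
    · refine Submodule.sum_mem _ fun l _ => Submodule.smul_mem _ _ ?_
      intro z u
      have h5 := hφ z fun i => ρ l (u i)
      rw [AlternatingMap.compLinearMap_apply, AlternatingMap.compLinearMap_apply]
      have h6 : (fun i => ((ρ l).restrictScalars ℝ) (z • u i)) = fun i => z • ρ l (u i) := by
        funext i
        exact (ρ l).map_smul z (u i)
      change φ (fun i => ((ρ l).restrictScalars ℝ) (z • u i)) = _
      rw [h6, h5]
      rfl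
  rw [h3, Submodule.mem_bot] at h4
  exact h4

/-- The components of the cohomology of the motive. -/
theorem img_le' (hM : Q_MAIN) (hE : Q_EXT) (hK : V_COR) {C : ChowTheory} {X : AV}
    {E : X.H → X.H → ℚ} {R : Subalgebra ℚ (Module.End ℚ X.H)} (hR : RealType X E R)
    {p : C.Co X X} (hact : ActsThrough R p) (hp : C.IsMotive p) {c : ℕ}
    (hc : C.HasConiveau p c) (m : ℕ) : ∀ v ∈ C.img p m, inc X m v ∈ ⨆ i : Ix C X c, Rg i := by
  have hV := C.hodge p hp.1 m
  change IsHodgeSubstructure X.per (C.img p m) at hV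
  rcases le_or_gt (2 * c) m with h | h
  · obtain ⟨n, rfl⟩ : ∃ n, m = n + 2 * c := ⟨m - 2 * c, by omega⟩
    intro v hv
    have h1 : v ∈ Cor C.alg X n (n + 2 * c) := hK C.alg X n c (key hM hE hR hact hc le_rfl h hv)
    unfold Cor at h1
    clear hv
    induction h1 using Submodule.span_induction with
    | mem f hf =>
      obtain ⟨Y, P, a, b, τ, y, ha, hb, hab, hτ, hfx⟩ := hf
      obtain ⟨Γ, hΓ, h2⟩ := C.classes a b ha hb hab n (n + 2 * c) c rfl τ hτ
      obtain ⟨ω, hω, hω'⟩ := h2 y f hfx
      have h3 : inc X (n + 2 * c) f ∈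
          Rg (⟨Y, c, Γ, Or.inl rfl, hΓ⟩ : Ix C X c) := ⟨ω, eq_inc hω hω'⟩
      exact Submodule.mem_iSup_of_mem _ h3
    | zero => rw [map_zero]; exact Submodule.zero_mem _
    | add f g _ _ hf hg => rw [map_add]; exact Submodule.add_mem _ hf hg
    | smul r f _ hf => rw [map_smul]; exact Submodule.smul_mem _ _ hf
  · rcases Nat.even_or_odd' m with ⟨j, hj | hj⟩
    · obtain rfl : m = 0 + 2 * j := by omega
      intro v hv
      have h1 := Pool.Agent.N507.GHC3.A_of_Cor C.alg X _ v
        (hK C.alg X 0 j (key hM hE hR hact hc (by omega) (by omega) hv))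
      obtain ⟨O, hO⟩ := exists_point
      have hO' : Subsingleton O.H := Module.finrank_zero_iff.1 hO
      have hb : Function.Bijective fun w : O.H × X.H => (0 : O.H →ₗ[ℚ] X.H) w.1 +
          (LinearMap.id : X.H →ₗ[ℚ] X.H) w.2 := by
        constructor
        · intro w w' h2
          refine Prod.ext (Subsingleton.elim _ _) ?_
          simpa using h2
        · intro x
          exact ⟨(0, x), by simp⟩
      obtain ⟨Γ, hΓ, h2⟩ := C.classes (Y := O) (X := X) (P := X) 0 LinearMap.id
        ⟨0, fun v => by rw [LinearMap.zero_apply, LinearMap.zero_apply, map_zero]⟩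
        ⟨LinearMap.id, fun v => rfl⟩ hb 0 (0 + 2 * j) j rfl
        (v.domDomCongr (Equiv.emptySum (Fin 0) (Fin (0 + 2 * j))).symm)
        (C.alg.reindex _ _ h1)
      obtain ⟨ω, hω, hω'⟩ := h2 (fun _ => 0) v (fun x => by
        rw [AlternatingMap.domDomCongr_apply]
        congr 1)
      have h3 : inc X (0 + 2 * j) v ∈
          Rg (⟨O, j, Γ, Or.inr ⟨by omega, hO⟩, hΓ⟩ : Ix C X c) := ⟨ω, eq_inc hω hω'⟩
      exact Submodule.mem_iSup_of_mem _ h3
    · have h1 : complexify X.per (C.img p m) = ⊥ := by
        rw [eq_bot_iff]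
        unfold IsHodgeSubstructure at hV
        rw [hV]
        refine iSup_le fun s => iSup_le fun t => iSup_le fun hst => ?_
        rw [hc m s t hst (by omega) (by omega)]
      intro v hv
      rw [eq_bot_of h1, Submodule.mem_bot] at hv
      rw [hv, map_zero]
      exact Submodule.zero_mem _

/-- **The factorization of the motive** -/
theorem t_V_IMGi : V_IMGi := by
  classical
  intro hM hE hK C X E R hR p hp hact c hc
  obtain ⟨U, hU⟩ : ∃ U : Submodule ℚ (HT X), U = (Finset.range (finrank ℚ X.H + 1)).sup fun m =>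
    (C.img p m).map (inc X m) := ⟨_, rfl⟩
  have hfg : U.FG := by
    rw [hU]
    refine Submodule.fg_finset_sup _ _ fun m _ => (finite_img m).map _
  have hle : U ≤ ⨆ i : Ix C X c, Rg i := by
    rw [hU]
    refine Finset.sup_le fun m _ => ?_
    rintro _ ⟨v, hv, rfl⟩
    exact img_le' hM hE hK hR hact hp hc m v hv
  obtain ⟨q, hq, hqU⟩ := exists_fix hfg hle
  refine lift hp hq fun v => hqU _ ?_
  -- the components
  rw [sum_inc (C.pb p v)]
  refine Submodule.sum_mem _ fun m hm => ?_
  rw [hU]
  have h2 := Finset.le_sup (f := fun m => (C.img p m).map (inc X m)) hm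
  exact h2 ⟨C.pb p v m, Submodule.subset_span ⟨v, rfl⟩, rfl⟩

end Pool.Agent.T2h97.V15
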